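import Pool.Agent.N557.QW.Stm

/-!
# QWP/BDM: block diagonal operators and matrix units
-/

set_option autoImplicit false

namespace Pool.Agent.N935.QWP

open Pool.Agent.H494R3.GT Pool.Agent.N557.QW

noncomputable section

variable {P ι : Type}

lemma inner_MM (A : Set P) (p : P) (v : L2 P) :
    inner ℂ (dl p) (MM A v) = inner ℂ (MM A (dl p)) v := by
  conv_lhs => rw [← star_MM A, ContinuousLinearMap.star_eq_adjoint]
  rw [ContinuousLinearMap.adjoint_inner_right]

lemma mem_BD (β : P → ι) (x : L2 P →L[ℂ] L2 P) :
    x ∈ BD β ↔ ∀ p q, β p ≠ β q → inner ℂ (dl p) (x (dl q)) = 0 := by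
  rw [BD, StarSubalgebra.mem_centralizer_iff]
  constructor
  · intro h p q hpq
    have h1 := (h _ ⟨β q, rfl⟩).1
    have h2 := congrArg (fun y : L2 P →L[ℂ] L2 P => inner ℂ (dl p) (y (dl q))) h1
    simp only [mul_ap] at h2
    rw [inner_MM, MM_dl_notMem (show p ∉ {p | β p = β q} from hpq), inner_zero_left,
      MM_dl_mem (show q ∈ {p | β p = β q} from rfl)] at h2
    exact h2.symm
  · rintro h _ ⟨b, rfl⟩
    have key : MM {p | β p = b} * x = x * MM {p | β p = b} := by
      classical
      refine op_ext_inner fun p q => ?_
      rw [mul_ap, mul_ap, inner_MM, MM_dl, MM_dl]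
      by_cases hp : β p = b
      · by_cases hq : β q = b
        · rw [if_pos (show p ∈ {p | β p = b} from hp), if_pos (show q ∈ {p | β p = b} from hq)]
        · rw [if_pos (show p ∈ {p | β p = b} from hp),
            if_neg (show q ∉ {p | β p = b} from hq), map_zero, inner_zero_right]
          exact h p q (fun e => hq (e ▸ hp))
      · by_cases hq : β q = b
        · rw [if_neg (show p ∉ {p | β p = b} from hp), if_pos (show q ∈ {p | β p = b} from hq),
            inner_zero_left]
          exact (h p q (fun e => hp (e.trans hq))).symm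
        · rw [if_neg (show p ∉ {p | β p = b} from hp), if_neg (show q ∉ {p | β p = b} from hq),
            inner_zero_left, map_zero, inner_zero_right]
    rw [star_MM]
    exact ⟨key, key⟩

lemma eu_dl (p q q' : P) [Decidable (q = q')] :
    eu p q (dl q') = if q = q' then dl p else 0 := by
  rw [eu, ContinuousLinearMap.smulRight_apply, innerSL_apply_apply, dl_inner]
  split_ifs
  · exact one_smul _ _
  · exact zero_smul _ _

/-- **BDM** -/
theorem t_bdm : S_BDM := by
  classical
  intro P ι β
  refine ⟨mem_BD β, ?_, ?_, ?_, ?_⟩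
  · rw [BD, StarSubalgebra.coe_centralizer]
    exact Set.isClosed_centralizer _
  · intro p q hpq
    rw [mem_BD]
    intro p' q' hne
    rw [eu_dl]
    split_ifs with h
    · rw [dl_inner, if_neg]
      intro h2
      exact hne (by rw [h2, hpq, h])
    · exact inner_zero_right _
  · intro p q
    refine op_ext_inner fun p' q' => ?_
    rw [ContinuousLinearMap.star_eq_adjoint, ContinuousLinearMap.adjoint_inner_right, eu_dl,
      eu_dl]
    by_cases h1 : q = p'
    · by_cases h2 : p = q'
      · rw [if_pos h1, if_pos h2, h1, h2, dl_inner, dl_inner, if_pos rfl, if_pos rfl]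
      · rw [if_pos h1, if_neg h2, dl_inner, if_neg h2, inner_zero_right]
    · by_cases h2 : p = q'
      · rw [if_neg h1, if_pos h2, inner_zero_left, dl_inner, if_neg (fun h => h1 h.symm)]
      · rw [if_neg h1, if_neg h2, inner_zero_left, inner_zero_right]
  · intro p q x
    ext1 v
    rw [mul_ap, eu, ContinuousLinearMap.smulRight_apply, ContinuousLinearMap.smulRight_apply,
      map_smul]

end

end Pool.Agent.N935.QWP
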